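import Mathlib
import Pool.Agent.V1113.BoolProd

/-!
# The minimal `(m, n)`-product need not be the smallest one
-/

set_option autoImplicit false
set_option linter.all false

namespace Pool.Agent.Results.MP_6fd33d_al.NotSmallest

open scoped Cardinal
open Pool.Agent.V1113.BoolProd

/-- The maps `i t` from the algebras `A t` to `B` form an `(m, n)`-product. -/
structure IsProduct (m n : Cardinal.{0}) {T : Type} {A : T → Type} [∀ t, BooleanAlgebra (A t)]
    {B : Type} [BooleanAlgebra B] (i : ∀ t, BoundedLatticeHom (A t) B) : Prop where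
  alg : IsMAlg m B
  inj : ∀ t, Function.Injective (i t)
  hom : ∀ t, IsMHom m (i t)
  indep : ∀ (F : Set T) (a : ∀ t, A t), #F ≤ n → (∀ t ∈ F, a t ≠ ⊥) →
    ∃ x, IsGLB ((fun t => i t (a t)) '' F) x ∧ x ≠ ⊥
  gen : Generates m (⋃ t, Set.range (i t))

/-- The meets `⋀_{t ∈ F} i_t(a_t)` with at most `n` elements in `F` are dense. -/
def IsMinimal (n : Cardinal.{0}) {T : Type} {A : T → Type} [∀ t, BooleanAlgebra (A t)] {B : Type}
    [BooleanAlgebra B] (i : ∀ t, BoundedLatticeHom (A t) B) : Prop :=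
  ∀ z : B, z ≠ ⊥ → ∃ (F : Set T) (a : ∀ t, A t) (x : B), #F ≤ n ∧
    IsGLB ((fun t => i t (a t)) '' F) x ∧ x ≠ ⊥ ∧ x ≤ z

/-- The family of two homomorphisms. -/
def two {A B : Type} [BooleanAlgebra A] [BooleanAlgebra B] (f g : BoundedLatticeHom A B) :
    ∀ _ : Bool, BoundedLatticeHom A B
  | false => f
  | true => g

section

variable {A B : Type} [BooleanAlgebra A] [BooleanAlgebra B]

open Classical in
theorem isGLB_pair' (j : ∀ _ : Bool, BoundedLatticeHom A B) (F : Set Bool) (a : ∀ _ : Bool, A) :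
    IsGLB ((fun t => j t (a t)) '' F) (j false (if false ∈ F then a false else ⊤) ⊓
      j true (if true ∈ F then a true else ⊤)) := by
  constructor
  · rintro _ ⟨t, ht, rfl⟩
    cases t
    · rw [if_pos ht]; exact inf_le_left
    · rw [if_pos ht]; exact inf_le_right
  · intro z hz
    refine le_inf ?_ ?_
    · split_ifs with h
      · exact hz ⟨false, h, rfl⟩
      · rw [map_top]; exact le_top
    · split_ifs with h
      · exact hz ⟨true, h, rfl⟩
      · rw [map_top]; exact le_top

theorem isProduct_two {m n : Cardinal.{0}} {f g : BoundedLatticeHom A B} (h1 : IsMAlg m B)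
    (hf : Function.Injective f) (hg : Function.Injective g) (hf' : IsMHom m f) (hg' : IsMHom m g)
    (hind : ∀ a b, a ≠ ⊥ → b ≠ ⊥ → f a ⊓ g b ≠ ⊥) (hA : (⊤ : A) ≠ ⊥)
    (hgen : Generates m (Set.range f ∪ Set.range g)) :
    IsProduct m n (A := fun _ : Bool => A) (two f g) where
  alg := h1
  inj t := by cases t <;> assumption
  hom t := by cases t <;> assumption
  indep F a _ ha := by
    classical
    have h2 : ∀ t, (if t ∈ F then a t else ⊤) ≠ ⊥ := by
      intro t
      split_ifs with ht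
      · exact ha t ht
      · exact hA
    exact ⟨_, isGLB_pair' (two f g) F a, hind _ _ (h2 false) (h2 true)⟩
  gen := by
    have : (⋃ t : Bool, Set.range (two f g t)) = Set.range f ∪ Set.range g := by
      ext x
      simp only [Set.mem_iUnion, Bool.exists_bool, Set.mem_union]
      rfl
    rw [this]
    exact hgen

theorem card_le {n : Cardinal.{0}} (hn : ℵ₀ ≤ n) (F : Set Bool) : #F ≤ n :=
  (Cardinal.mk_le_aleph0).trans hn

theorem isMinimal_two {n : Cardinal.{0}} (hn : ℵ₀ ≤ n) {f g : BoundedLatticeHom A B}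
    (h : ∀ z : B, z ≠ ⊥ → ∃ a b, f a ⊓ g b ≠ ⊥ ∧ f a ⊓ g b ≤ z) :
    IsMinimal n (A := fun _ : Bool => A) (two f g) := by
  intro z hz
  obtain ⟨a, b, hab, habz⟩ := h z hz
  refine ⟨Set.univ, fun t => if t then b else a, f a ⊓ g b, card_le hn _, ?_, hab, habz⟩
  have := isGLB_pair' (two f g) Set.univ (fun t => if t then b else a)
  rw [if_pos (Set.mem_univ _), if_pos (Set.mem_univ _)] at this
  exact this

theorem indep_of {m n : Cardinal.{0}} (hn : ℵ₀ ≤ n) {j : ∀ _ : Bool, BoundedLatticeHom A B}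
    (hj : IsProduct m n (A := fun _ : Bool => A) j) {a b : A} (ha : a ≠ ⊥) (hb : b ≠ ⊥) :
    j false a ⊓ j true b ≠ ⊥ := by
  obtain ⟨x, hx, hx0⟩ := hj.indep Set.univ (fun t => if t then b else a) (card_le hn _)
    (by rintro (_ | _) _ <;> assumption)
  have h1 := isGLB_pair' j Set.univ (fun t => if t then b else a)
  have h2 := hx.unique h1
  intro h
  apply hx0
  rw [h2, eq_bot_iff, ← h]
  simp

theorem dense_of {n : Cardinal.{0}} {j : ∀ _ : Bool, BoundedLatticeHom A B}
    (hj : IsMinimal n (A := fun _ : Bool => A) j) {z : B} (hz : z ≠ ⊥) :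
    ∃ a b, j false a ⊓ j true b ≠ ⊥ ∧ j false a ⊓ j true b ≤ z := by
  obtain ⟨F, a, x, _, h1, h2, h3⟩ := hj z hz
  have h4 := h1.unique (isGLB_pair' j F a)
  exact ⟨_, _, by rwa [← h4], by rwa [← h4]⟩

end

/-- The main result. -/
theorem result : ∀ m n : Cardinal.{0}, ℵ₀ ≤ n → n ≤ m →
    ∃ (A : Bool → Type) (_ : ∀ t, BooleanAlgebra (A t)), (∀ t, Nontrivial (A t)) ∧
      (∃ (M : Type) (_ : BooleanAlgebra M) (j : ∀ t, BoundedLatticeHom (A t) M),
        IsProduct m n j ∧ IsMinimal n j) ∧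
      ∃ (B : Type) (_ : BooleanAlgebra B) (i : ∀ t, BoundedLatticeHom (A t) B), IsProduct m n i ∧
        ∀ (M : Type) (_ : BooleanAlgebra M) (j : ∀ t, BoundedLatticeHom (A t) M),
          IsProduct m n j → IsMinimal n j →
            ¬ ∃ h : BoundedLatticeHom B M, IsMHom m h ∧ ∀ t a, h (i t a) = j t a := by
  intro m n hn hnm
  have hm := hn.trans hnm
  refine ⟨fun _ => RO X, fun _ => inferInstance, fun _ => ⟨⟨⊥, ⊤, nontrivial_RO⟩⟩,
    ⟨RO (X × X), inferInstance, two j0 j1, isProduct_two (isMAlg_M m) j0_inj j1_inj (j0_isMHom m)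
      (j1_isMHom m) (fun a b => indep_M) nontrivial_RO.symm (generates_M hm),
      isMinimal_two hn fun z => dense_M⟩,
    Finset ℕ → RO X, inferInstance, two i0 i1, isProduct_two (isMAlg_B m) i0_inj i1_inj
      (i0_isMHom m) (i1_isMHom m) (fun a b => indep_B) nontrivial_RO.symm (generates_B hm), ?_⟩
  rintro M _ j hj hjm ⟨h, hh, hij⟩
  exact core hm (j0 := j false) (j1 := j true) (fun a b => indep_of hn hj) (fun z => dense_of hjm) h hh
    (fun a => hij false a) (fun a => hij true a)

end Pool.Agent.Results.MP_6fd33d_al.NotSmallest
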